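import Pool.Agent.HIK.Stmts

/-! Squad HIK, row HSE (helper13): house of the interpolation determinant. -/

set_option autoImplicit false

namespace Pool.Agent.HIK.H13

open Polynomial NumberField Matrix Pool.Agent.HIK

theorem norm_det_le (N : ℕ) (a y : Fin (N + 1) → ℂ) (T Y : ℝ)
    (ha : ∀ i, ‖a i‖ ≤ T) (hy : ∀ i, ‖y i‖ ≤ Y) :
    ‖(interpMatK N a y).det‖ ≤ (N + 1).factorial * (T ^ (N * (N - 1) / 2) * Y) := by
  have hT : 0 ≤ T := (norm_nonneg _).trans (ha 0)
  have hY : 0 ≤ Y := (norm_nonneg _).trans (hy 0)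
  rw [Matrix.det_apply]
  refine (norm_sum_le _ _).trans ?_
  have hcard : (Finset.univ : Finset (Equiv.Perm (Fin (N + 1)))).card = (N + 1).factorial := by
    rw [Finset.card_univ, Fintype.card_perm, Fintype.card_fin]
  rw [← hcard, ← nsmul_eq_mul]
  refine Finset.sum_le_card_nsmul _ _ _ fun σ _ => ?_
  have hsgn : ‖(((Equiv.Perm.sign σ : ℤˣ) : ℤ) : ℂ)‖ = 1 := by
    rcases Int.units_eq_one_or (Equiv.Perm.sign σ) with h | h <;> simp [h]
  rw [Units.smul_def, zsmul_eq_mul, norm_mul, hsgn, one_mul, norm_prod,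
    Fin.prod_univ_castSucc]
  refine mul_le_mul ?_ ?_ (norm_nonneg _) (by positivity)
  · have h1 : ∀ i : Fin N, ‖interpMatK N a y (σ i.castSucc) i.castSucc‖ ≤ T ^ (i : ℕ) := by
      intro i
      simp only [interpMatK, Matrix.of_apply, Fin.val_castSucc, Fin.is_lt, if_true]
      rw [norm_pow]
      exact pow_le_pow_left₀ (norm_nonneg _) (ha _) _
    refine (Finset.prod_le_prod (fun i _ => norm_nonneg _) (fun i _ => h1 i)).trans ?_
    rw [Finset.prod_pow_eq_pow_sum, Fin.sum_univ_eq_sum_range (fun k => k) N,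
      Finset.sum_range_id]
  · simp only [interpMatK, Matrix.of_apply, Fin.val_last, lt_irrefl, if_false]
    exact hy _

theorem map_interpMatK {R S : Type*} [CommRing R] [CommRing S] (f : R →+* S) (N : ℕ)
    (a y : Fin (N + 1) → R) :
    f (interpMatK N a y).det = (interpMatK N (fun i => f (a i)) (fun i => f (y i))).det := by
  rw [RingHom.map_det]
  congr 1
  ext i k
  rw [RingHom.mapMatrix_apply, Matrix.map_apply]
  simp only [interpMatK, Matrix.of_apply]
  split_ifs
  · rw [map_pow]
  · rfl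

theorem hse : HseStmt := by
  intro K _ _ N a y T Y ha hy
  have hT : 0 ≤ T := (house_nonneg _).trans (ha 0)
  have hY : 0 ≤ Y := (house_nonneg _).trans (hy 0)
  rw [house]
  rw [pi_norm_le_iff_of_nonneg (by positivity)]
  intro σ
  have h1 : canonicalEmbedding K (interpMatK N a y).det σ = σ (interpMatK N a y).det := rfl
  rw [h1, map_interpMatK]
  exact norm_det_le N _ _ T Y (fun i => (norm_embedding_le_house _ σ).trans (ha i))
    (fun i => (norm_embedding_le_house _ σ).trans (hy i))

end Pool.Agent.HIK.H13
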